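import Pool.Agent.N402.QG.OFFb

set_option autoImplicit false
set_option linter.all false

/-! # Project QG (helper728), task OFF: the off-diagonal terms (helper402) -/

namespace Pool.Agent.N402.QG

open Finset Pool.Agent.N728.QL Pool.Agent.N728.QG Polynomial

/-- the weight of a class -/
noncomputable def wt (c : ℤ) (w y M x0 t0 : ℕ) : ℝ :=
  rg w y x0 * rg w y t0 * (rg 0 y ((M : ℤ) * x0 * t0 + c) * (VW 0 y)⁻¹)

lemma wt_abs (c : ℤ) (w y M x0 t0 : ℕ) : |wt c w y M x0 t0| ≤ (VW 0 y)⁻¹ := by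
  have hV := inv_pos.2 (VW_pos 0 y)
  unfold wt
  have h1 := rg_nonneg w y x0
  have h2 := rg_nonneg w y t0
  have h3 := rg_nonneg 0 y ((M : ℤ) * x0 * t0 + c)
  have h4 := rg_le_one w y x0
  have h5 := rg_le_one w y t0
  have h6 := rg_le_one 0 y ((M : ℤ) * x0 * t0 + c)
  rw [abs_of_nonneg (by positivity)]
  calc rg w y x0 * rg w y t0 * (rg 0 y ((M : ℤ) * x0 * t0 + c) * (VW 0 y)⁻¹) ≤ 1 * 1 * (1 * (VW 0 y)⁻¹) := by
        gcongr
    _ = _ := by ring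

lemma mod_dvd {q a x : ℕ} (hqa : q ∣ a) : (q : ℤ) ∣ (x : ℤ) - ((x % a : ℕ) : ℤ) := by
  have h1 : (x : ℤ) - ((x % a : ℕ) : ℤ) = ((a * (x / a) : ℕ) : ℤ) := by
    have := Nat.mod_add_div x a
    omega
  rw [h1]
  exact_mod_cast hqa.mul_right _

lemma split_sum (G : ℤ[X]) (c : ℤ) {w y z z1 X Y M m m' a1 a2 : ℕ} (F : ℤ → ℝ) (hyz : y ≤ z) (hz1 : z ≤ z1)
    (ha1 : 0 < a1) (ha2 : 0 < a2) (hq1 : PP 0 y ∣ a1) (hq2 : PP 0 y ∣ a2) :
    ∑ x ∈ Icc 1 X, ∑ t ∈ Icc 1 Y, rg w y x * rg w y t * dz z z1 ((M : ℤ) * x * t + c) *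
      F (((M / m : ℕ) : ℤ) * t - G.eval ((m : ℤ) * x)) * F (((M / m' : ℕ) : ℤ) * t - G.eval ((m' : ℤ) * x)) =
    ∑ x0 ∈ range a1, ∑ t0 ∈ range a2, wt c w y M x0 t0 *
      Scl G c y z z1 X Y M (M / m) (M / m') m m' a1 a2 x0 t0 F := by
  have e1 : ∀ (X a : ℕ) (ha : 0 < a) (g : ℕ → ℝ), ∑ x ∈ Icc 1 X, g x =
      ∑ x0 ∈ range a, ∑ x ∈ (Icc 1 X).filter (fun x => x % a = x0), g x := by
    intro X a ha g
    exact (Finset.sum_fiberwise_of_maps_to (g := fun x => x % a)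
      (fun x _ => mem_range.2 (Nat.mod_lt _ ha)) g).symm
  rw [e1 X a1 ha1]
  refine Finset.sum_congr rfl fun x0 _ => ?_
  have e2 : ∀ x ∈ (Icc 1 X).filter (fun x => x % a1 = x0), ∑ t ∈ Icc 1 Y,
      rg w y x * rg w y t * dz z z1 ((M : ℤ) * x * t + c) *
      F (((M / m : ℕ) : ℤ) * t - G.eval ((m : ℤ) * x)) * F (((M / m' : ℕ) : ℤ) * t - G.eval ((m' : ℤ) * x)) =
      ∑ t0 ∈ range a2, wt c w y M x0 t0 * ∑ t ∈ (Icc 1 Y).filter (fun t => t % a2 = t0),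
        dzy y z z1 ((M : ℤ) * x * t + c) * F (((M / m : ℕ) : ℤ) * t - G.eval ((m : ℤ) * x)) *
          F (((M / m' : ℕ) : ℤ) * t - G.eval ((m' : ℤ) * x)) := by
    intro x hx
    rw [mem_filter] at hx
    rw [e1 Y a2 ha2]
    refine Finset.sum_congr rfl fun t0 _ => ?_
    rw [Finset.mul_sum]
    refine Finset.sum_congr rfl fun t ht => ?_
    rw [mem_filter] at ht
    have d1 : ((PP 0 y : ℕ) : ℤ) ∣ (x : ℤ) - (x0 : ℤ) := by
      have := mod_dvd (x := x) hq1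
      rwa [hx.2] at this
    have d2 : ((PP 0 y : ℕ) : ℤ) ∣ (t : ℤ) - (t0 : ℤ) := by
      have := mod_dvd (x := t) hq2
      rwa [ht.2] at this
    have d3 : ((PP 0 y : ℕ) : ℤ) ∣ ((M : ℤ) * x * t + c) - ((M : ℤ) * x0 * t0 + c) := by
      have : ((M : ℤ) * x * t + c) - ((M : ℤ) * x0 * t0 + c) =
        ((x : ℤ) - x0) * (M * t) + ((t : ℤ) - t0) * (M * x0) := by ring
      rw [this]
      exact dvd_add (d1.mul_right _) (d2.mul_right _)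
    rw [dz_eq hyz hz1, rg_congr d1, rg_congr d2, rg_congr d3]
    unfold wt
    ring
  rw [Finset.sum_congr rfl e2, Finset.sum_comm]
  refine Finset.sum_congr rfl fun t0 _ => ?_
  rw [← Finset.mul_sum]
  rfl

lemma le_sum_range (f : ℕ → ℕ) {i n : ℕ} (h : i < n) : f i ≤ ∑ j ∈ range n, f j :=
  Finset.single_le_sum (f := f) (fun _ _ => Nat.zero_le _) (mem_range.2 h)

/-- **Task OFF** -/
theorem t_OFF (hG : Pool.Agent.N728.QG.S_GVN) (hB : Pool.Agent.N728.QG.S_BOX) (hM : S_MER) :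
    ∀ (G : Polynomial ℤ) (c : ℤ), 1 ≤ G.natDegree → c ≠ 0 → Pool.Agent.N728.QG.S_OFF G c := by
  intro G c he hc
  obtain ⟨e, hed⟩ : ∃ e, e = G.natDegree := ⟨_, rfl⟩
  rw [← hed] at he
  obtain ⟨Kb, hKb, hbox⟩ := hB (e + 1) e c (by omega) hc
  obtain ⟨CM, hCM, -, hmer⟩ := hM
  have hKbr : (1 : ℝ) ≤ Kb := by exact_mod_cast hKb
  obtain ⟨p, hp⟩ : ∃ p : ℕ, p = 2 ^ (e + 1) := ⟨_, rfl⟩
  have hp1 : 1 ≤ p := by rw [hp]; exact Nat.one_le_two_pow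
  have hpr : (1 : ℝ) ≤ p := by exact_mod_cast hp1
  obtain ⟨Kc, hKc⟩ : ∃ Kc : ℕ, Kc = ⌈30 * CM * Kb⌉₊ + 8 * (e + 3) * Kb * p + c.natAbs + 3 := ⟨_, rfl⟩
  have hKc1 : 30 * CM * Kb ≤ Kc := by
    refine (Nat.le_ceil _).trans ?_
    exact_mod_cast (by omega : ⌈30 * CM * (Kb : ℝ)⌉₊ ≤ Kc)
  have hKc2 : 8 * (e + 3) * Kb * p ≤ Kc := by omega
  have hKc3 : 8 * (e + 3) * Kb ≤ Kc := le_trans (Nat.le_mul_of_pos_right _ hp1) hKc2
  have hKc4 : Kb ≤ Kc := by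
    refine le_trans ?_ hKc3
    exact Nat.le_mul_of_pos_left _ (by omega)
  refine ⟨Kc, by omega, ?_⟩
  intro k w y M0 K hk hw hwy ε hε
  have hy3 : 3 ≤ y := by omega
  have hlogy : 1 ≤ Real.log y := by
    have h1 : Real.exp 1 ≤ y := by
      have := Real.exp_one_lt_d9
      have : (3 : ℝ) ≤ y := by exact_mod_cast hy3
      linarith
    rwa [Real.le_log_iff_exp_le (by linarith [Real.exp_pos 1])]
  have hVW := (hmer y (by omega)).2
  have hV0 := inv_pos.2 (VW_pos 0 y)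
  obtain ⟨q1, hq1⟩ : ∃ q1, q1 = PP 0 y := ⟨_, rfl⟩
  have hq1p : 0 < q1 := by rw [hq1]; exact PP_pos 0 y
  obtain ⟨a1, ha1⟩ : ∃ a1, a1 = q1 ^ 3 := ⟨_, rfl⟩
  obtain ⟨a2, ha2⟩ : ∃ a2, a2 = q1 ^ 2 := ⟨_, rfl⟩
  have ha1p : 0 < a1 := by rw [ha1]; positivity
  have ha2p : 0 < a2 := by rw [ha2]; positivity
  obtain ⟨ε2, hε2⟩ : ∃ ε2 : ℝ, ε2 = ε / (30 * CM * Real.log y) := ⟨_, rfl⟩
  have hε20 : 0 < ε2 := by rw [hε2]; positivity
  obtain ⟨z0, hz0⟩ := hbox k y (e + 3) (by omega) (by omega) (by omega) (by omega) (ε2 ^ p) (by positivity)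
  refine ⟨max z0 y, fun z hz => ?_⟩
  have hyz : y ≤ z := (le_max_right _ _).trans hz
  have hz' := hz0 z ((le_max_left _ _).trans hz)
  obtain ⟨err, herr⟩ : ∃ err : ℝ, err = Kb * (2 : ℝ) ^ (-((k : ℝ) / (8 * ((e + 3 : ℕ) : ℝ) * Kb))) + ε2 ^ p := ⟨_, rfl⟩
  have hpy : ∀ q : ℕ, q.Prime → q ∣ q1 → q ≤ y := by
    intro q hq h
    rw [hq1] at h
    exact (dvd_PP hq h).2
  have hcls : ∀ M m m' x0 t0 : ℕ, ∃ B0 : ℕ, M ∣ PP w y → m ∣ M → m' ∣ M → x0 < a1 → t0 < a2 →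
      ∀ B : ℕ, B0 ≤ B → ∀ (z1 X Y : ℕ) (F : ℤ → ℝ), z ≤ z1 → z1 ^ k ≤ B → B ≤ (X / a1) ^ (e + 3) →
      X / a1 ≤ B ^ (e + 3) → B ≤ (Y / a2 + 1) ^ (e + 3) → Y / a2 + 1 ≤ B ^ (e + 3) → 1 ≤ X / a1 →
      B ≤ M / m * Y → B ≤ M / m' * Y → Adm5 F B →
      |Scl G c y z z1 X Y M (M / m) (M / m') m m' a1 a2 x0 t0 F| ^ (2 ^ (e + 1)) ≤
        (15 * (((X / a1 : ℕ) : ℝ) * ((Y / a2 + 1 : ℕ) : ℝ))) ^ (2 ^ (e + 1)) * err := by
    intro M m m' x0 t0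
    by_cases hcon : M ∣ PP w y ∧ m ∣ M ∧ m' ∣ M ∧ x0 < a1 ∧ t0 < a2
    swap
    · exact ⟨0, fun h1 h2 h3 h4 h5 => absurd ⟨h1, h2, h3, h4, h5⟩ hcon⟩
    obtain ⟨hMP, hm, hm', hx0, ht0⟩ := hcon
    have hM0 : 0 < M := Nat.pos_of_dvd_of_pos hMP (PP_pos w y)
    have hA0 : 0 < M / m := Nat.div_pos (Nat.le_of_dvd hM0 hm) (Nat.pos_of_dvd_of_pos hm hM0)
    have hA0' : 0 < M / m' := Nat.div_pos (Nat.le_of_dvd hM0 hm') (Nat.pos_of_dvd_of_pos hm' hM0)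
    have hPP : PP w y ∣ q1 := by
      rw [hq1]
      unfold PP
      exact Finset.prod_dvd_prod_of_subset _ _ _ (Finset.filter_subset_filter _
        (Finset.Ioc_subset_Ioc_left (Nat.zero_le w)))
    have hMq : M ∣ q1 := hMP.trans hPP
    have hdv : ∀ m : ℕ, m ∣ M → M / m * a2 ∣ a1 := by
      intro m hm
      rw [ha1, ha2, pow_succ' q1 2]
      exact Nat.mul_dvd_mul ((Nat.div_dvd_of_dvd hm).trans hMq) (dvd_refl _)
    obtain ⟨B0, hB0⟩ := cls hG he G hed.ge (c := c) (y := y) (z := z) (k := k) (D := e + 3) (err := err)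
      (M := M) (A := M / m) (A' := M / m') (m := m) (m' := m') hx0 ht0 hA0 hA0' (hdv m hm) (hdv m' hm') (by
        intro θ hθ
        obtain ⟨B0, hB0⟩ := hz' M a1 a2 (x0 : ℤ) (t0 : ℤ) θ hM0 ha1p ha2p (by
          intro q hq hyq
          constructor
          · intro h
            rcases (Nat.Prime.dvd_mul hq).1 h with h1 | h1
            · rcases (Nat.Prime.dvd_mul hq).1 h1 with h2 | h2
              · have := hpy q hq (h2.trans hMq)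
                omega
              · rw [ha1] at h2
                have := hpy q hq (hq.dvd_of_dvd_pow h2)
                omega
            · rw [ha2] at h1
              have := hpy q hq (hq.dvd_of_dvd_pow h1)
              omega
          · intro h
            have h1 : q ∣ c.natAbs := Int.natCast_dvd.1 h
            have h2 := Nat.le_of_dvd (Int.natAbs_pos.2 hc) h1
            omega) hθ
        refine ⟨B0, fun B hB z1 L N J1 J2 h1 h2 h3 h4 h5 h6 h7 => ?_⟩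
        have h8 := hB0 B hB z1 L N J1 J2 h1 h2 h3 h4 h5 h6 h7
        rw [herr]
        exact h8)
    exact ⟨B0, fun _ _ _ _ _ => hB0⟩
  choose B1 hB1 using hcls
  obtain ⟨BB, hBB⟩ : ∃ BB : ℕ, BB = ∑ M ∈ range (M0 + 1), ∑ m ∈ range (M0 + 1), ∑ m' ∈ range (M0 + 1),
    ∑ x0 ∈ range a1, ∑ t0 ∈ range a2, B1 M m m' x0 t0 := ⟨_, rfl⟩
  refine ⟨BB + (2 * a1) ^ ((e + 3) * (e + 2)) + (M0 * a2) ^ 2 + M0 * a2 + K + 1, ?_⟩
  intro B hBB0 z1 X Y M m m' F hz1 hz1k hMP hMM hm hm' hX hXB hY hAY hAY' hF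
  rw [← hed] at hX
  have hM0 : 0 < M := Nat.pos_of_dvd_of_pos hMP (PP_pos w y)
  have hmM0 : m ≤ M0 := (Nat.le_of_dvd hM0 hm).trans hMM
  have hmM0' : m' ≤ M0 := (Nat.le_of_dvd hM0 hm').trans hMM
  have hB1' : 1 ≤ B := by omega
  have hcl : ∀ x0 t0 : ℕ, x0 < a1 → t0 < a2 → B1 M m m' x0 t0 ≤ B := by
    intro x0 t0 hx0 ht0
    have h1 : B1 M m m' x0 t0 ≤ BB := by
      rw [hBB]
      calc B1 M m m' x0 t0 ≤ ∑ t0 ∈ range a2, B1 M m m' x0 t0 := le_sum_range (fun t0 => B1 M m m' x0 t0) ht0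
        _ ≤ ∑ x0 ∈ range a1, ∑ t0 ∈ range a2, B1 M m m' x0 t0 :=
          le_sum_range (fun x0 => ∑ t0 ∈ range a2, B1 M m m' x0 t0) hx0
        _ ≤ ∑ m' ∈ range (M0 + 1), ∑ x0 ∈ range a1, ∑ t0 ∈ range a2, B1 M m m' x0 t0 :=
          le_sum_range (fun m' => ∑ x0 ∈ range a1, ∑ t0 ∈ range a2, B1 M m m' x0 t0) (by omega)
        _ ≤ ∑ m ∈ range (M0 + 1), ∑ m' ∈ range (M0 + 1), ∑ x0 ∈ range a1, ∑ t0 ∈ range a2, B1 M m m' x0 t0 :=
          le_sum_range (fun m => ∑ m' ∈ range (M0 + 1), ∑ x0 ∈ range a1, ∑ t0 ∈ range a2, B1 M m m' x0 t0)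
            (by omega)
        _ ≤ _ := le_sum_range (fun M => ∑ m ∈ range (M0 + 1), ∑ m' ∈ range (M0 + 1), ∑ x0 ∈ range a1,
          ∑ t0 ∈ range a2, B1 M m m' x0 t0) (by omega)
    omega
  -- ranges
  have hX1 : (2 * a1) ^ (e + 3) ≤ X := by
    by_contra hcon
    push Not at hcon
    have h1 : X ^ (e + 2) < ((2 * a1) ^ (e + 3)) ^ (e + 2) := Nat.pow_lt_pow_left hcon (by omega)
    rw [← pow_mul] at h1
    omega
  have h2a1 : 2 * a1 ≤ X := (Nat.le_self_pow (by omega) _).trans hX1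
  have hLX : X ≤ 2 * a1 * (X / a1) := by
    have h1 := Nat.lt_div_mul_add (a := X) ha1p
    have h2 : 1 ≤ X / a1 := (Nat.one_le_div_iff ha1p).2 (by omega)
    calc X ≤ X / a1 * a1 + 1 * a1 := by rw [one_mul]; exact h1.le
      _ ≤ X / a1 * a1 + X / a1 * a1 := Nat.add_le_add_left (Nat.mul_le_mul_right _ h2) _
      _ = _ := by ring
  have hL1 : 1 ≤ X / a1 := (Nat.one_le_div_iff ha1p).2 (by omega)
  have hLB : B ≤ (X / a1) ^ (e + 3) := by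
    have h1 : B * (2 * a1) ^ (e + 3) ≤ (2 * a1) ^ (e + 3) * (X / a1) ^ (e + 3) := by
      calc B * (2 * a1) ^ (e + 3) ≤ X ^ (e + 2) * X := Nat.mul_le_mul hX hX1
        _ = X ^ (e + 3) := by ring
        _ ≤ (2 * a1 * (X / a1)) ^ (e + 3) := Nat.pow_le_pow_left hLX _
        _ = _ := mul_pow _ _ _
    rw [mul_comm] at h1
    exact Nat.le_of_mul_le_mul_left h1 (by positivity)
  have hLB2 : X / a1 ≤ B ^ (e + 3) :=
    (Nat.div_le_self _ _).trans (hXB.trans (Nat.le_self_pow (by omega) _))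
  have hBY : B ≤ M0 * Y := hAY.trans (Nat.mul_le_mul_right _ ((Nat.div_le_self _ _).trans hMM))
  have hM00 : 0 < M0 := hM0.trans_le hMM
  have hYa : Y ≤ a2 * (Y / a2 + 1) := by
    have h1 := Nat.lt_div_mul_add (a := Y) ha2p
    calc Y ≤ Y / a2 * a2 + a2 := h1.le
      _ = _ := by ring
  have hNB : B ≤ (Y / a2 + 1) ^ (e + 3) := by
    have h1 : B ≤ M0 * a2 * (Y / a2 + 1) := by
      calc B ≤ M0 * Y := hBY
        _ ≤ M0 * (a2 * (Y / a2 + 1)) := Nat.mul_le_mul_left _ hYa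
        _ = _ := by ring
    have h2 : (M0 * a2) ^ 2 ≤ B := by omega
    have h3 : B * (M0 * a2) ^ 2 ≤ (M0 * a2) ^ 2 * (Y / a2 + 1) ^ 2 := by
      calc B * (M0 * a2) ^ 2 ≤ B * B := Nat.mul_le_mul_left _ h2
        _ ≤ (M0 * a2 * (Y / a2 + 1)) * (M0 * a2 * (Y / a2 + 1)) := Nat.mul_le_mul h1 h1
        _ = _ := by ring
    rw [mul_comm] at h3
    have h4 := Nat.le_of_mul_le_mul_left h3 (by positivity)
    exact h4.trans (Nat.pow_le_pow_right (Nat.succ_pos _) (by omega))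
  have hNB2 : Y / a2 + 1 ≤ B ^ (e + 3) := by
    have h1 : Y / a2 + 1 ≤ K * B + B := by
      have := Nat.div_le_self Y a2
      omega
    calc Y / a2 + 1 ≤ K * B + B := h1
      _ = (K + 1) * B := by ring
      _ ≤ B * B := Nat.mul_le_mul_right _ (by omega)
      _ = B ^ 2 := by ring
      _ ≤ B ^ (e + 3) := Nat.pow_le_pow_right hB1' (by omega)
  have ha2Y : a2 ≤ Y := by
    have h1 : M0 * a2 ≤ M0 * Y := le_trans (by omega) hBY
    exact Nat.le_of_mul_le_mul_left h1 hM00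
  -- one class
  obtain ⟨r1, hr1⟩ : ∃ r1 : ℝ, r1 = Kb * (2 : ℝ) ^ (-((k : ℝ) / (8 * ((e + 3 : ℕ) : ℝ) * Kb * p))) := ⟨_, rfl⟩
  have hr10 : 0 ≤ r1 := by rw [hr1]; positivity
  have hrp : err ≤ (r1 + ε2) ^ p := by
    refine le_trans ?_ (pow_add_pow_le hr10 hε20.le (by omega))
    rw [herr]
    apply add_le_add _ le_rfl
    rw [hr1, mul_pow, ← Real.rpow_natCast ((2 : ℝ) ^ _) p, ← Real.rpow_mul (by norm_num)]
    have h1 : -((k : ℝ) / (8 * ((e + 3 : ℕ) : ℝ) * Kb * p)) * p = -((k : ℝ) / (8 * ((e + 3 : ℕ) : ℝ) * Kb)) := by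
      field_simp
    rw [h1]
    have h2 : (Kb : ℝ) ≤ (Kb : ℝ) ^ p := le_self_pow₀ hKbr (by omega)
    gcongr
  set LN : ℝ := ((X / a1 : ℕ) : ℝ) * ((Y / a2 + 1 : ℕ) : ℝ) with hLN
  have hLN0 : 0 ≤ LN := by positivity
  have hone : ∀ x0 ∈ range a1, ∀ t0 ∈ range a2,
      |wt c w y M x0 t0 * Scl G c y z z1 X Y M (M / m) (M / m') m m' a1 a2 x0 t0 F| ≤
        (VW 0 y)⁻¹ * (15 * LN * (r1 + ε2)) := by
    intro x0 hx0 t0 ht0
    rw [mem_range] at hx0 ht0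
    have h1 := hB1 M m m' x0 t0 hMP hm hm' hx0 ht0 B (hcl x0 t0 hx0 ht0) z1 X Y F hz1 hz1k hLB hLB2 hNB hNB2
      hL1 hAY hAY' hF
    rw [← hp, ← hLN] at h1
    have h2 : |Scl G c y z z1 X Y M (M / m) (M / m') m m' a1 a2 x0 t0 F| ≤ 15 * LN * (r1 + ε2) := by
      apply le_of_pow_le_pow_left₀ (by omega : p ≠ 0) (by positivity)
      rw [mul_pow]
      refine h1.trans ?_
      exact mul_le_mul_of_nonneg_left hrp (by positivity)
    rw [abs_mul]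
    exact mul_le_mul (wt_abs c w y M x0 t0) h2 (abs_nonneg _) hV0.le
  have hq1' : PP 0 y ∣ a1 := by rw [ha1, hq1]; exact dvd_pow_self _ (by norm_num)
  have hq2' : PP 0 y ∣ a2 := by rw [ha2, hq1]; exact dvd_pow_self _ (by norm_num)
  rw [split_sum G c F hyz hz1 ha1p ha2p hq1' hq2']
  have hsum : |∑ x0 ∈ range a1, ∑ t0 ∈ range a2, wt c w y M x0 t0 *
      Scl G c y z z1 X Y M (M / m) (M / m') m m' a1 a2 x0 t0 F| ≤
      (a1 : ℝ) * (a2 * ((VW 0 y)⁻¹ * (15 * LN * (r1 + ε2)))) := by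
    refine (Finset.abs_sum_le_sum_abs _ _).trans ?_
    calc ∑ x0 ∈ range a1, |∑ t0 ∈ range a2, wt c w y M x0 t0 *
        Scl G c y z z1 X Y M (M / m) (M / m') m m' a1 a2 x0 t0 F| ≤
        ∑ x0 ∈ range a1, (a2 * ((VW 0 y)⁻¹ * (15 * LN * (r1 + ε2)))) := by
          refine Finset.sum_le_sum fun x0 hx0 => ?_
          refine (Finset.abs_sum_le_sum_abs _ _).trans ?_
          refine (Finset.sum_le_sum fun t0 ht0 => hone x0 hx0 t0 ht0).trans ?_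
          rw [Finset.sum_const, card_range, nsmul_eq_mul]
      _ = _ := by rw [Finset.sum_const, card_range, nsmul_eq_mul]
  refine hsum.trans ?_
  have hXr : (0 : ℝ) ≤ X := Nat.cast_nonneg _
  have hYr : (0 : ℝ) ≤ Y := Nat.cast_nonneg _
  have hXY : (a1 : ℝ) * a2 * LN ≤ 2 * ((X : ℝ) * Y) := by
    have h1 : a1 * (X / a1) ≤ X := Nat.mul_div_le _ _
    have h2 : a2 * (Y / a2 + 1) ≤ 2 * Y := by
      calc a2 * (Y / a2 + 1) = a2 * (Y / a2) + a2 := by ring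
        _ ≤ Y + Y := Nat.add_le_add (Nat.mul_div_le Y a2) ha2Y
        _ = 2 * Y := by ring
    have h3 : (a1 * (X / a1)) * (a2 * (Y / a2 + 1)) ≤ X * (2 * Y) := Nat.mul_le_mul h1 h2
    have h4 : (((a1 * (X / a1)) * (a2 * (Y / a2 + 1)) : ℕ) : ℝ) ≤ ((X * (2 * Y) : ℕ) : ℝ) := by exact_mod_cast h3
    rw [hLN]
    calc (a1 : ℝ) * a2 * (((X / a1 : ℕ) : ℝ) * ((Y / a2 + 1 : ℕ) : ℝ)) =
        (((a1 * (X / a1)) * (a2 * (Y / a2 + 1)) : ℕ) : ℝ) := by push_cast; ring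
      _ ≤ _ := h4
      _ = _ := by push_cast; ring
  have hfin : (30 * CM * Real.log y) * (r1 + ε2) ≤ Kc * Real.log y ^ Kc * (2 : ℝ) ^ (-((k : ℝ) / Kc)) + ε := by
    have h1 : (30 * CM * Real.log y) * ε2 = ε := by
      rw [hε2]
      field_simp
    rw [mul_add, h1]
    apply add_le_add _ le_rfl
    have hKcr : (0 : ℝ) < Kc := by
      have : 0 < Kc := by omega
      exact_mod_cast this
    have h2 : (2 : ℝ) ^ (-((k : ℝ) / (8 * ((e + 3 : ℕ) : ℝ) * Kb * p))) ≤ (2 : ℝ) ^ (-((k : ℝ) / Kc)) := by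
      apply Real.rpow_le_rpow_of_exponent_le (by norm_num)
      apply neg_le_neg
      have h3 : 8 * ((e + 3 : ℕ) : ℝ) * Kb * p ≤ Kc := by exact_mod_cast hKc2
      have h4 : 0 < 8 * ((e + 3 : ℕ) : ℝ) * Kb * p := by positivity
      exact div_le_div_of_nonneg_left (Nat.cast_nonneg _) h4 h3
    have h3 : Real.log y ≤ Real.log y ^ Kc := le_self_pow₀ hlogy (by omega)
    calc 30 * CM * Real.log y * r1 = (30 * CM * Kb) * Real.log y *
          (2 : ℝ) ^ (-((k : ℝ) / (8 * ((e + 3 : ℕ) : ℝ) * Kb * p))) := by rw [hr1]; ring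
      _ ≤ Kc * Real.log y ^ Kc * (2 : ℝ) ^ (-((k : ℝ) / Kc)) := by gcongr
  calc (a1 : ℝ) * (a2 * ((VW 0 y)⁻¹ * (15 * LN * (r1 + ε2)))) =
      (VW 0 y)⁻¹ * (15 * (a1 * a2 * LN) * (r1 + ε2)) := by ring
    _ ≤ (CM * Real.log y) * (15 * (2 * ((X : ℝ) * Y)) * (r1 + ε2)) := by
      gcongr
    _ = ((30 * CM * Real.log y) * (r1 + ε2)) * ((X : ℝ) * Y) := by ring
    _ ≤ _ := mul_le_mul_of_nonneg_right hfin (by positivity)

end Pool.Agent.N402.QG
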