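import Pool.Agent.N728.QG.Def

set_option autoImplicit false
set_option linter.all false

/-! # Project QG (helper728), task OFF, part A: weights, shifted polynomials, classes, intervals (helper402) -/

namespace Pool.Agent.N402.QG

open Finset Pool.Agent.N728.QL Pool.Agent.N728.QG Polynomial

/-! ### weights -/

lemma rg_congr {w y : ℕ} {n n' : ℤ} (h : ((PP 0 y : ℕ) : ℤ) ∣ n - n') : rg w y n = rg w y n' := by
  have h2 : ∀ p : ℕ, p.Prime → p ≤ y → ((p : ℤ) ∣ n ↔ (p : ℤ) ∣ n') := by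
    intro p hp hpy
    have h1 : (p : ℤ) ∣ n - n' :=
      (Int.natCast_dvd_natCast.2 (prime_dvd_PP hp hp.pos hpy)).trans h
    exact dvd_iff_dvd_of_dvd_sub h1
  have h3 : Rg w y n ↔ Rg w y n' := by
    unfold Rg
    constructor
    · intro h p hp h4 h5 h6
      exact h p hp h4 h5 ((h2 p hp h5).2 h6)
    · intro h p hp h4 h5 h6
      exact h p hp h4 h5 ((h2 p hp h5).1 h6)
  unfold rg
  by_cases h4 : Rg w y n
  · rw [if_pos h4, if_pos (h3.1 h4)]
  · rw [if_neg h4, if_neg (fun h5 => h4 (h3.2 h5))]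

lemma VW_split {y z : ℕ} (h : y ≤ z) : VW 0 z = VW 0 y * VW y z := by
  unfold VW
  rw [← Finset.prod_union]
  · congr 1
    ext p
    rw [Finset.mem_union, mem_filter, mem_filter, mem_filter, mem_Ioc, mem_Ioc, mem_Ioc]
    constructor
    · rintro ⟨⟨h1, h2⟩, h3⟩
      rcases le_or_gt p y with h4 | h4
      · exact Or.inl ⟨⟨h1, h4⟩, h3⟩
      · exact Or.inr ⟨⟨h4, h2⟩, h3⟩
    · rintro (⟨⟨h1, h2⟩, h3⟩ | ⟨⟨h1, h2⟩, h3⟩)
      · exact ⟨⟨h1, h2.trans h⟩, h3⟩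
      · exact ⟨⟨by omega, h2⟩, h3⟩
  · rw [Finset.disjoint_left]
    intro p h1 h2
    rw [mem_filter, mem_Ioc] at h1 h2
    omega

lemma lz_eq {y z : ℕ} (h : y ≤ z) (n : ℤ) : lz z n = rg 0 y n * (VW 0 y)⁻¹ * lzy y z n := by
  have h3 : Rg 0 z n ↔ Rg 0 y n ∧ Rg y z n := by
    unfold Rg
    constructor
    · intro h1
      exact ⟨fun p hp h4 h5 => h1 p hp h4 (h5.trans h), fun p hp h4 h5 => h1 p hp hp.pos h5⟩
    · rintro ⟨h1, h2⟩ p hp h4 h5
      rcases le_or_gt p y with h6 | h6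
      · exact h1 p hp h4 h6
      · exact h2 p hp h6 h5
  unfold lz lzy rg
  by_cases h1 : Rg 0 y n
  · by_cases h2 : Rg y z n
    · rw [if_pos (h3.2 ⟨h1, h2⟩), if_pos h1, if_pos h2, VW_split h, mul_inv]
      ring
    · rw [if_neg (fun h4 => h2 (h3.1 h4).2), if_neg h2]
      ring
  · rw [if_neg (fun h4 => h1 (h3.1 h4).1), if_neg h1]
    ring

lemma dz_eq {y z z1 : ℕ} (h : y ≤ z) (h1 : z ≤ z1) (n : ℤ) :
    dz z z1 n = rg 0 y n * (VW 0 y)⁻¹ * dzy y z z1 n := by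
  unfold dz dzy
  rw [lz_eq h, lz_eq (h.trans h1)]
  ring

/-! ### shifted polynomials -/

lemma exP (G : ℤ[X]) {u d v : ℤ} {r : ℤ} (hu : u = d * r) : ∃ P : ℤ[X], P.natDegree ≤ G.natDegree ∧
    ∀ ξ : ℤ, G.eval (v + u * ξ) = G.eval v + d * P.eval ξ := by
  refine ⟨∑ i ∈ range G.natDegree, C ((taylor v G).coeff (i + 1) * r * u ^ i) * X ^ (i + 1), ?_, ?_⟩
  · refine natDegree_sum_le_of_forall_le _ _ fun i hi => ?_
    rw [mem_range] at hi
    exact (natDegree_C_mul_X_pow_le _ _).trans hi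
  · intro ξ
    have h1 : G.eval (v + u * ξ) = (taylor v G).eval (u * ξ) := by
      rw [taylor_eval, add_comm]
    rw [h1, eval_eq_sum_range, natDegree_taylor, Finset.sum_range_succ', taylor_coeff_zero, pow_zero, mul_one,
      add_comm, eval_finset_sum, Finset.mul_sum]
    congr 1
    refine Finset.sum_congr rfl fun i _ => ?_
    rw [eval_mul, eval_C, eval_pow, eval_X, mul_pow, pow_succ u, hu]
    ring

/-! ### classes -/

lemma split1 {a x0 : ℕ} (hx0 : x0 < a) (X : ℕ) (s : ℤ) (J : Finset ℤ)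
    (hJ : ∀ σ : ℤ, 0 ≤ σ + s → σ + s ≤ ((X / a : ℕ) : ℤ) → σ ∈ J) (h : ℤ → ℝ) :
    ∑ x ∈ (Icc 1 X).filter (fun x => x % a = x0), h (x : ℤ) =
      ∑ σ ∈ J, if 1 ≤ (x0 : ℤ) + a * (σ + s) ∧ (x0 : ℤ) + a * (σ + s) ≤ X then h ((x0 : ℤ) + a * (σ + s)) else 0 := by
  rw [← Finset.sum_filter]
  have ha : 0 < a := by omega
  have haz : (0 : ℤ) < a := by exact_mod_cast ha
  refine Finset.sum_bij (fun x _ => ((x / a : ℕ) : ℤ) - s) ?_ ?_ ?_ ?_
  · intro x hx
    rw [mem_filter, mem_Icc] at hx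
    have h1 : (x0 : ℤ) + a * (((x / a : ℕ) : ℤ) - s + s) = x := by
      rw [sub_add_cancel, ← hx.2]
      exact_mod_cast Nat.mod_add_div x a
    rw [mem_filter, h1]
    refine ⟨hJ _ ?_ ?_, by omega, by omega⟩
    · rw [sub_add_cancel]
      exact Int.natCast_nonneg _
    · rw [sub_add_cancel]
      exact_mod_cast Nat.div_le_div_right hx.1.2
  · intro x hx x' hx' he
    rw [mem_filter] at hx hx'
    have h1 : x / a = x' / a := by
      have : ((x / a : ℕ) : ℤ) = ((x' / a : ℕ) : ℤ) := by linarith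
      exact_mod_cast this
    rw [← Nat.mod_add_div x a, ← Nat.mod_add_div x' a, hx.2, hx'.2, h1]
  · intro σ hσ
    rw [mem_filter] at hσ
    have h1 : 0 ≤ σ + s := by
      by_contra hcon
      have h2 : σ + s ≤ -1 := by omega
      have h3 : (a : ℤ) * (σ + s) ≤ a * (-1) := mul_le_mul_of_nonneg_left h2 haz.le
      have h4 : (x0 : ℤ) < a := by exact_mod_cast hx0
      linarith [hσ.2.1]
    obtain ⟨u, hu⟩ := Int.eq_ofNat_of_zero_le h1
    have h2 : (x0 : ℤ) + a * (σ + s) = ((x0 + a * u : ℕ) : ℤ) := by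
      rw [hu]
      push_cast
      ring
    rw [h2] at hσ
    have h3 : (x0 + a * u) / a = u := by
      rw [Nat.add_mul_div_left _ _ ha, Nat.div_eq_of_lt hx0, zero_add]
    refine ⟨x0 + a * u, ?_, ?_⟩
    · rw [mem_filter, mem_Icc]
      refine ⟨⟨by exact_mod_cast hσ.2.1, by exact_mod_cast hσ.2.2⟩, ?_⟩
      rw [Nat.add_mul_mod_self_left, Nat.mod_eq_of_lt hx0]
    · rw [h3]
      linarith
  · intro x hx
    rw [mem_filter, mem_Icc] at hx
    have h1 : (x0 : ℤ) + a * (((x / a : ℕ) : ℤ) - s + s) = x := by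
      rw [sub_add_cancel, ← hx.2]
      exact_mod_cast Nat.mod_add_div x a
    rw [h1]

/-! ### intervals -/

lemma ordconn (I : Finset ℤ) (N : ℕ) (h1 : ∀ a ∈ I, ∀ b ∈ I, ∀ c, a ≤ c → c ≤ b → c ∈ I)
    (h2 : ∀ a ∈ I, ∀ b ∈ I, b - a + 1 ≤ N) : ∃ J1 J2 : ℤ, I = Ioc J1 J2 ∧ J1 ≤ J2 ∧ J2 ≤ J1 + N := by
  rcases I.eq_empty_or_nonempty with rfl | hne
  · exact ⟨0, 0, by simp, le_rfl, by simp⟩
  · refine ⟨I.min' hne - 1, I.max' hne, ?_, ?_, ?_⟩
    · ext c
      rw [mem_Ioc]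
      constructor
      · intro hc
        have := I.min'_le c hc
        exact ⟨by omega, I.le_max' c hc⟩
      · rintro ⟨h3, h4⟩
        exact h1 _ (I.min'_mem hne) _ (I.max'_mem hne) c (by omega) h4
    · have := I.min'_le _ (I.max'_mem hne)
      omega
    · have := h2 _ (I.min'_mem hne) _ (I.max'_mem hne)
      omega

/-- the support of `F` along a progression -/
lemma supp_prog {F : ℤ → ℝ} {B : ℕ} (hF : Adm5 F B) {u : ℕ} (hu : 0 < u) (s0 : ℤ) (σ : ℤ)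
    (h : ¬ ((B - s0) / (u : ℤ) < σ ∧ σ ≤ (B - s0) / (u : ℤ) + ((4 * B / u + 1 : ℕ) : ℤ))) : F (s0 + u * σ) = 0 := by
  apply hF.2
  rintro ⟨h1, h2⟩
  apply h
  have huz : (0 : ℤ) < u := by exact_mod_cast hu
  constructor
  · apply Int.ediv_lt_of_lt_mul huz
    linarith
  · have h3 : (B : ℤ) - s0 < ((B - s0) / (u : ℤ) + 1) * u := Int.lt_ediv_add_one_mul_self _ huz
    have h4 : (4 * B : ℤ) < ((4 * B / u : ℕ) : ℤ) * u + u := by
      exact_mod_cast Nat.lt_div_mul_add (a := 4 * B) hu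
    push_cast
    by_contra hcon
    push Not at hcon
    have h5 : (B - s0) / (u : ℤ) + (4 * B / u + 1) + 1 ≤ σ := by omega
    have h6 : ((B - s0) / (u : ℤ) + (4 * B / u + 1) + 1) * u ≤ σ * u := mul_le_mul_of_nonneg_right h5 huz.le
    push_cast at h4
    nlinarith

end Pool.Agent.N402.QG
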