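import Pool.Agent.N402.QG.OFFa

set_option autoImplicit false
set_option linter.all false

/-! # Project QG (helper728), task OFF, part B: one class (helper402) -/

namespace Pool.Agent.N402.QG

open Finset Pool.Agent.N728.QL Pool.Agent.N728.QG Polynomial

/-- the sum over a class -/
noncomputable def Scl (G : ℤ[X]) (c : ℤ) (y z z1 X Y M A A' m m' a1 a2 x0 t0 : ℕ) (F : ℤ → ℝ) : ℝ :=
  ∑ x ∈ (Icc 1 X).filter (fun x => x % a1 = x0), ∑ t ∈ (Icc 1 Y).filter (fun t => t % a2 = t0),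
    dzy y z z1 ((M : ℤ) * x * t + c) * F ((A : ℤ) * t - G.eval ((m : ℤ) * x)) *
      F ((A' : ℤ) * t - G.eval ((m' : ℤ) * x))

/-- the linear form of a vertex -/
noncomputable def lf {e : ℕ} (ω : Finset (Fin (e + 1))) : MvPolynomial (Fin (e + 2)) ℤ :=
  MvPolynomial.X 0 + ∑ j ∈ ω, MvPolynomial.X j.succ

lemma lf_deg {e : ℕ} (ω : Finset (Fin (e + 1))) : (lf ω).totalDegree ≤ 1 := by
  unfold lf
  refine (MvPolynomial.totalDegree_add _ _).trans (max_le (MvPolynomial.totalDegree_X _).le ?_)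
  refine (MvPolynomial.totalDegree_finset_sum _ _).trans (Finset.sup_le fun j _ => ?_)
  exact (MvPolynomial.totalDegree_X _).le

lemma lf_eval {e : ℕ} (ω : Finset (Fin (e + 1))) (v : Fin (e + 2) → ℤ) :
    MvPolynomial.eval v (lf ω) = v 0 + ∑ j ∈ ω, v j.succ := by
  unfold lf
  simp

lemma aeval_deg {e : ℕ} (ω : Finset (Fin (e + 1))) {P : ℤ[X]} (hP : P.natDegree ≤ e) :
    (aeval (lf ω) P).totalDegree ≤ e := by
  rw [aeval_eq_sum_range]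
  refine (MvPolynomial.totalDegree_finset_sum _ _).trans (Finset.sup_le fun i hi => ?_)
  rw [mem_range] at hi
  refine (MvPolynomial.totalDegree_smul_le _ _).trans ?_
  refine (MvPolynomial.totalDegree_pow _ _).trans ?_
  calc i * (lf ω).totalDegree ≤ i * 1 := Nat.mul_le_mul_left _ (lf_deg ω)
    _ ≤ e := by omega

lemma aeval_eval {e : ℕ} (ω : Finset (Fin (e + 1))) (P : ℤ[X]) (v : Fin (e + 2) → ℤ) :
    MvPolynomial.eval v (aeval (lf ω) P) = P.eval (v 0 + ∑ j ∈ ω, v j.succ) := by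
  rw [← lf_eval, aeval_eq_sum_range, eval_eq_sum_range, map_sum]
  refine Finset.sum_congr rfl fun i _ => ?_
  rw [MvPolynomial.smul_eval, map_pow]

/-- from sums over `τ` and `ξ` to sums over `v` -/
lemma sum_cons_le {n : ℕ} (L : ℕ) (T : (Fin (n + 1) → ℤ) → ℝ) (hT : ∀ v, 0 ≤ T v) :
    ∑ τ ∈ Fintype.piFinset (fun _ : Fin n => Icc (-(L : ℤ)) L), ∑ ξ ∈ Icc (0 : ℤ) L, T (Fin.cons ξ τ) ≤
      ∑ v ∈ Fintype.piFinset (fun _ : Fin (n + 1) => Icc (-(L : ℤ)) L), T v := by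
  classical
  rw [← Finset.sum_product']
  have hinj : Set.InjOn (fun p : (Fin n → ℤ) × ℤ => (Fin.cons p.2 p.1 : Fin (n + 1) → ℤ))
      ((Fintype.piFinset (fun _ : Fin n => Icc (-(L : ℤ)) L)) ×ˢ Icc (0 : ℤ) L : Finset _) := by
    rintro ⟨τ, ξ⟩ _ ⟨τ', ξ'⟩ _ h
    have h1 := Fin.cons_injective2 h
    simp only at h1
    rw [h1.1, h1.2]
  rw [← Finset.sum_image (f := T) hinj]
  refine Finset.sum_le_sum_of_subset_of_nonneg ?_ fun v _ _ => hT v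
  intro v hv
  rw [mem_image] at hv
  obtain ⟨⟨τ, ξ⟩, h, rfl⟩ := hv
  rw [mem_product, Fintype.mem_piFinset, mem_Icc] at h
  rw [Fintype.mem_piFinset]
  intro i
  refine Fin.cases ?_ (fun j => ?_) i
  · rw [Fin.cons_zero, mem_Icc]
    exact ⟨by have := h.2.1; simp only at this; omega, h.2.2⟩
  · rw [Fin.cons_succ]
    exact h.1 j

lemma num {e : ℕ} {S n1 n2 L N err T : ℝ} (hn1 : 0 ≤ n1) (hn2 : 0 ≤ n2) (h1 : n1 ≤ 5 * N) (h2 : n2 ≤ 5 * N)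
    (hN : 0 ≤ N) (hL : 0 ≤ L) (hT : T ≤ err * (L ^ (e + 2) * N)) (hT0 : 0 ≤ T)
    (h : S ≤ n1 ^ (2 ^ e) * n2 ^ (2 ^ e - 1) * (3 * L) ^ (2 ^ (e + 1) - e - 2) * T) :
    S ≤ (15 * (L * N)) ^ (2 ^ (e + 1)) * err := by
  have hpow : e + 2 ≤ 2 ^ (e + 1) := Nat.lt_two_pow_self
  have h2e : 1 ≤ 2 ^ e := Nat.one_le_two_pow
  have h2e' : 2 ^ (e + 1) = 2 ^ e + 2 ^ e := by ring
  have herr0 : 0 ≤ err * (L ^ (e + 2) * N) := hT0.trans hT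
  generalize 2 ^ (e + 1) = P at *
  generalize 2 ^ e = q at *
  have a1 : n1 ^ q ≤ (5 * N) ^ q := pow_le_pow_left₀ hn1 h1 _
  have a2 : n2 ^ (q - 1) ≤ (5 * N) ^ (q - 1) := pow_le_pow_left₀ hn2 h2 _
  have a3 : (1 : ℝ) ≤ 3 ^ (e + 2) * 5 := by
    have : (1 : ℝ) ≤ 3 ^ (e + 2) := one_le_pow₀ (by norm_num)
    linarith
  have a4 : T ≤ 3 ^ (e + 2) * 5 * (err * (L ^ (e + 2) * N)) := by
    have := mul_le_mul_of_nonneg_right a3 herr0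
    linarith
  calc S ≤ n1 ^ q * n2 ^ (q - 1) * (3 * L) ^ (P - e - 2) * T := h
    _ ≤ (5 * N) ^ q * (5 * N) ^ (q - 1) * (3 * L) ^ (P - e - 2) *
        (3 ^ (e + 2) * 5 * (err * (L ^ (e + 2) * N))) := by
      refine mul_le_mul ?_ a4 hT0 (by positivity)
      refine mul_le_mul_of_nonneg_right ?_ (by positivity)
      exact mul_le_mul a1 a2 (by positivity) (by positivity)
    _ = ((5 * N) ^ q * ((5 * N) ^ (q - 1) * (5 * N))) *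
        ((3 * L) ^ (P - e - 2) * (3 * L) ^ (e + 2)) * err := by
      rw [mul_pow (3 : ℝ) L (e + 2)]
      ring
    _ = (15 * (L * N)) ^ P * err := by
      rw [← pow_succ, ← pow_add, ← pow_add, Nat.sub_add_cancel h2e, ← h2e',
        show P - e - 2 + (e + 2) = P by omega, ← mul_pow]
      congr 2
      ring

theorem cls (hG : Pool.Agent.N728.QG.S_GVN) {e : ℕ} (he : 1 ≤ e) (G : ℤ[X]) (hGe : G.natDegree ≤ e) {c : ℤ}
    {y z k D : ℕ} {err : ℝ} {M A A' m m' a1 a2 x0 t0 : ℕ} (hx0 : x0 < a1) (ht0 : t0 < a2)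
    (hA0 : 0 < A) (hA0' : 0 < A') (hA : A * a2 ∣ a1) (hA' : A' * a2 ∣ a1)
    (hbox : ∀ θ : Finset (Fin (e + 1)) → MvPolynomial (Fin (e + 2)) ℤ, (∀ ω, (θ ω).totalDegree ≤ e) →
      ∃ B0 : ℕ, ∀ B : ℕ, B0 ≤ B → ∀ (z1 L N : ℕ) (J1 J2 : (Fin (e + 2) → ℤ) → ℤ), z ≤ z1 → z1 ^ k ≤ B →
      B ≤ L ^ D → L ≤ B ^ D → B ≤ N ^ D → N ≤ B ^ D → (∀ v, J1 v ≤ J2 v ∧ J2 v ≤ J1 v + N) →
      ∑ v ∈ Fintype.piFinset (fun _ : Fin (e + 2) => Icc (-(L : ℤ)) L),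
        |∑ σ ∈ Ioc (J1 v) (J2 v), ∏ ω : Finset (Fin (e + 1)),
          dzy y z z1 ((M : ℤ) * ((x0 : ℤ) + a1 * (v 0 + ∑ j ∈ ω, v j.succ)) *
            ((t0 : ℤ) + a2 * (σ + MvPolynomial.eval v (θ ω))) + c)| ≤ err * ((L : ℝ) ^ (e + 2) * N)) :
    ∃ B0 : ℕ, ∀ B : ℕ, B0 ≤ B → ∀ (z1 X Y : ℕ) (F : ℤ → ℝ), z ≤ z1 → z1 ^ k ≤ B → B ≤ (X / a1) ^ D →
      X / a1 ≤ B ^ D → B ≤ (Y / a2 + 1) ^ D → Y / a2 + 1 ≤ B ^ D → 1 ≤ X / a1 → B ≤ A * Y → B ≤ A' * Y →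
      Adm5 F B →
      |Scl G c y z z1 X Y M A A' m m' a1 a2 x0 t0 F| ^ (2 ^ (e + 1)) ≤
        (15 * (((X / a1 : ℕ) : ℝ) * ((Y / a2 + 1 : ℕ) : ℝ))) ^ (2 ^ (e + 1)) * err := by
  classical
  have ha1 : 0 < a1 := by omega
  have ha2 : 0 < a2 := by omega
  have ha1z : (0 : ℤ) < a1 := by exact_mod_cast ha1
  have ha2z : (0 : ℤ) < a2 := by exact_mod_cast ha2
  obtain ⟨r, hr⟩ := hA
  obtain ⟨r', hr'⟩ := hA'
  obtain ⟨P1, hP1d, hP1⟩ := exP G (u := (m : ℤ) * a1) (d := (A : ℤ) * a2) (v := (m : ℤ) * x0)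
    (r := (m : ℤ) * r) (by rw [hr]; push_cast; ring)
  obtain ⟨P2, hP2d, hP2⟩ := exP G (u := (m' : ℤ) * a1) (d := (A' : ℤ) * a2) (v := (m' : ℤ) * x0)
    (r := (m' : ℤ) * r') (by rw [hr']; push_cast; ring)
  obtain ⟨S, hS, hgvn⟩ := hG e (P1 - P2) he
    ((natDegree_sub_le _ _).trans (max_le (hP1d.trans hGe) (hP2d.trans hGe)))
  obtain ⟨B0, hB0⟩ := hbox (fun ω => S ω + aeval (lf ω) P1) (by
    intro ω
    exact (MvPolynomial.totalDegree_add _ _).trans (max_le (hS ω) (aeval_deg ω (hP1d.trans hGe))))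
  refine ⟨B0, ?_⟩
  intro B hB z1 X Y F hz1 hz1k hL1 hL2 hN1 hN2 hL0 hAY hAY' hF
  set L := X / a1 with hLd
  set N := Y / a2 + 1 with hNd
  set s0 : ℤ := (A : ℤ) * t0 - G.eval ((m : ℤ) * x0) with hs0
  set s0' : ℤ := (A' : ℤ) * t0 - G.eval ((m' : ℤ) * x0) with hs0'
  set f : ℤ → ℤ → ℝ := fun ξ σ => if (0 ≤ ξ ∧ ξ ≤ L ∧ 1 ≤ (x0 : ℤ) + a1 * ξ ∧ (x0 : ℤ) + a1 * ξ ≤ X) ∧
    (1 ≤ (t0 : ℤ) + a2 * (σ + P1.eval ξ) ∧ (t0 : ℤ) + a2 * (σ + P1.eval ξ) ≤ Y) then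
    dzy y z z1 ((M : ℤ) * ((x0 : ℤ) + a1 * ξ) * ((t0 : ℤ) + a2 * (σ + P1.eval ξ)) + c) else 0 with hf
  set Z0 : ℕ := Y + ∑ ξ ∈ Icc (0 : ℤ) L, (P1.eval ξ).natAbs with hZ0
  have hσY : ∀ u : ℤ, 1 ≤ (t0 : ℤ) + a2 * u → (t0 : ℤ) + a2 * u ≤ Y → 0 ≤ u ∧ u ≤ ((Y / a2 : ℕ) : ℤ) := by
    intro u h1 h2
    have ht : (t0 : ℤ) < a2 := by exact_mod_cast ht0
    have h3 : 0 ≤ u := by
      by_contra hcon
      have h3 : (a2 : ℤ) * u ≤ a2 * (-1) := mul_le_mul_of_nonneg_left (by omega) ha2z.le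
      linarith
    refine ⟨h3, ?_⟩
    push_cast
    rw [Int.le_ediv_iff_mul_le ha2z]
    have : (0 : ℤ) ≤ t0 := Int.natCast_nonneg _
    linarith
  have hZσ : ∀ ξ σ : ℤ, 0 ≤ ξ → ξ ≤ L → 0 ≤ σ + P1.eval ξ → σ + P1.eval ξ ≤ ((Y / a2 : ℕ) : ℤ) → |σ| ≤ Z0 := by
    intro ξ σ h1 h2 h3 h4
    have h5 : (P1.eval ξ).natAbs ≤ ∑ ξ ∈ Icc (0 : ℤ) L, (P1.eval ξ).natAbs :=
      Finset.single_le_sum (f := fun ξ : ℤ => (P1.eval ξ).natAbs) (fun _ _ => Nat.zero_le _)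
        (mem_Icc.2 ⟨h1, h2⟩)
    have h6 : Y / a2 ≤ Y := Nat.div_le_self _ _
    rw [abs_le]
    constructor <;> omega
  have hf0 : ∀ ξ σ : ℤ, ¬ (0 ≤ ξ ∧ ξ ≤ L ∧ |σ| ≤ Z0) → f ξ σ = 0 := by
    intro ξ σ h
    rw [hf]
    simp only
    rw [if_neg]
    rintro ⟨⟨h1, h2, h3, h4⟩, h5, h6⟩
    have h7 := hσY _ h5 h6
    exact h ⟨h1, h2, hZσ ξ σ h1 h2 h7.1 h7.2⟩
  have hu1 : 0 < A * a2 := Nat.mul_pos hA0 ha2
  have hu2 : 0 < A' * a2 := Nat.mul_pos hA0' ha2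
  obtain ⟨Z1, hZ1⟩ := hgvn L (4 * B / (A * a2) + 1) (4 * B / (A' * a2) + 1) Z0
    ((B - s0) / ((A * a2 : ℕ) : ℤ)) ((B - s0') / ((A' * a2 : ℕ) : ℤ)) f
    (fun σ => F (s0 + ((A * a2 : ℕ) : ℤ) * σ)) (fun σ => F (s0' + ((A' * a2 : ℕ) : ℤ) * σ)) hL0
    (Nat.le_add_left _ _) (Nat.le_add_left _ _) hf0 (fun σ => hF.1 _) (fun σ => hF.1 _)
    (fun σ h => supp_prog hF hu1 s0 σ h) (fun σ h => supp_prog hF hu2 s0' σ h)
  set Z := max Z1 Z0 with hZ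
  have hineq := hZ1 Z (le_max_left _ _)
  have hScl : Scl G c y z z1 X Y M A A' m m' a1 a2 x0 t0 F =
      ∑ ξ ∈ Icc (0 : ℤ) L, ∑ σ ∈ Icc (-(Z : ℤ)) Z, f ξ σ * F (s0 + ((A * a2 : ℕ) : ℤ) * σ) *
        F (s0' + ((A' * a2 : ℕ) : ℤ) * (σ + (P1 - P2).eval ξ)) := by
    unfold Scl
    rw [split1 hx0 X 0 (Icc (0 : ℤ) L) (by
      intro σ h1 h2
      rw [add_zero] at h1 h2
      exact mem_Icc.2 ⟨h1, h2⟩) (fun x : ℤ => ∑ t ∈ (Icc 1 Y).filter (fun t => t % a2 = t0),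
        dzy y z z1 ((M : ℤ) * x * t + c) * F ((A : ℤ) * t - G.eval ((m : ℤ) * x)) *
          F ((A' : ℤ) * t - G.eval ((m' : ℤ) * x)))]
    refine Finset.sum_congr rfl fun ξ hξ => ?_
    rw [mem_Icc] at hξ
    rw [add_zero]
    by_cases hcx : 1 ≤ (x0 : ℤ) + a1 * ξ ∧ (x0 : ℤ) + a1 * ξ ≤ X
    · rw [if_pos hcx]
      rw [split1 ht0 Y (P1.eval ξ) (Icc (-(Z : ℤ)) Z) (by
        intro σ h1 h2
        have h3 := hZσ ξ σ hξ.1 hξ.2 h1 h2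
        have h4 : (Z0 : ℤ) ≤ Z := by exact_mod_cast le_max_right _ _
        rw [abs_le] at h3
        rw [mem_Icc]
        omega) (fun t : ℤ => dzy y z z1 ((M : ℤ) * ((x0 : ℤ) + a1 * ξ) * t + c) *
          F ((A : ℤ) * t - G.eval ((m : ℤ) * ((x0 : ℤ) + a1 * ξ))) *
          F ((A' : ℤ) * t - G.eval ((m' : ℤ) * ((x0 : ℤ) + a1 * ξ))))]
      refine Finset.sum_congr rfl fun σ _ => ?_
      by_cases hct : 1 ≤ (t0 : ℤ) + a2 * (σ + P1.eval ξ) ∧ (t0 : ℤ) + a2 * (σ + P1.eval ξ) ≤ Y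
      · rw [if_pos hct, hf]
        simp only
        rw [if_pos ⟨⟨hξ.1, hξ.2, hcx⟩, hct⟩]
        have e1 := hP1 ξ
        have e2 := hP2 ξ
        have e3 : G.eval ((m : ℤ) * ((x0 : ℤ) + a1 * ξ)) = G.eval ((m : ℤ) * x0) + A * a2 * P1.eval ξ := by
          rw [← e1]
          congr 1
          ring
        have e4 : G.eval ((m' : ℤ) * ((x0 : ℤ) + a1 * ξ)) = G.eval ((m' : ℤ) * x0) + A' * a2 * P2.eval ξ := by
          rw [← e2]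
          congr 1
          ring
        have e5 : (A : ℤ) * ((t0 : ℤ) + a2 * (σ + P1.eval ξ)) - G.eval ((m : ℤ) * ((x0 : ℤ) + a1 * ξ)) =
            s0 + ((A * a2 : ℕ) : ℤ) * σ := by
          rw [e3, hs0]
          push_cast
          ring
        have e6 : (A' : ℤ) * ((t0 : ℤ) + a2 * (σ + P1.eval ξ)) - G.eval ((m' : ℤ) * ((x0 : ℤ) + a1 * ξ)) =
            s0' + ((A' * a2 : ℕ) : ℤ) * (σ + (P1 - P2).eval ξ) := by
          rw [e4, hs0', eval_sub]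
          push_cast
          ring
        rw [e5, e6]
      · rw [if_neg hct, hf]
        simp only
        rw [if_neg (fun h => hct h.2), zero_mul, zero_mul]
    · rw [if_neg hcx]
      symm
      refine Finset.sum_eq_zero fun σ _ => ?_
      rw [hf]
      simp only
      rw [if_neg (fun h => hcx ⟨h.1.2.2.1, h.1.2.2.2⟩), zero_mul, zero_mul]
  -- the intervals
  set cond : (Fin (e + 2) → ℤ) → ℤ → Finset (Fin (e + 1)) → Prop := fun v σ ω =>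
    (0 ≤ v 0 + ∑ j ∈ ω, v j.succ ∧ v 0 + ∑ j ∈ ω, v j.succ ≤ L ∧
      1 ≤ (x0 : ℤ) + a1 * (v 0 + ∑ j ∈ ω, v j.succ) ∧ (x0 : ℤ) + a1 * (v 0 + ∑ j ∈ ω, v j.succ) ≤ X) ∧
    (1 ≤ (t0 : ℤ) + a2 * (σ + MvPolynomial.eval v (S ω + aeval (lf ω) P1)) ∧
      (t0 : ℤ) + a2 * (σ + MvPolynomial.eval v (S ω + aeval (lf ω) P1)) ≤ Y) with hcond
  have hJ : ∀ v : Fin (e + 2) → ℤ, ∃ J1 J2 : ℤ,
      (Icc (-(Z : ℤ)) Z).filter (fun σ => ∀ ω, cond v σ ω) = Ioc J1 J2 ∧ J1 ≤ J2 ∧ J2 ≤ J1 + N := by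
    intro v
    apply ordconn
    · intro a ha b hb c' h1 h2
      rw [mem_filter, mem_Icc] at ha hb ⊢
      refine ⟨by omega, fun ω => ⟨(ha.2 ω).1, ?_, ?_⟩⟩
      · refine (ha.2 ω).2.1.trans ?_
        have : (a2 : ℤ) * (a + MvPolynomial.eval v (S ω + aeval (lf ω) P1)) ≤
          a2 * (c' + MvPolynomial.eval v (S ω + aeval (lf ω) P1)) :=
          mul_le_mul_of_nonneg_left (by linarith) ha2z.le
        linarith
      · refine le_trans ?_ (hb.2 ω).2.2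
        have : (a2 : ℤ) * (c' + MvPolynomial.eval v (S ω + aeval (lf ω) P1)) ≤
          a2 * (b + MvPolynomial.eval v (S ω + aeval (lf ω) P1)) :=
          mul_le_mul_of_nonneg_left (by linarith) ha2z.le
        linarith
    · intro a ha b hb
      rw [mem_filter] at ha hb
      have h1 := hσY _ (ha.2 ∅).2.1 (ha.2 ∅).2.2
      have h2 := hσY _ (hb.2 ∅).2.1 (hb.2 ∅).2.2
      rw [hNd]
      push_cast at h1 h2 ⊢
      linarith [h1.1, h2.2]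
  choose J1 J2 hJ using hJ
  have hprod : ∀ v : Fin (e + 2) → ℤ, ∑ σ ∈ Icc (-(Z : ℤ)) Z, ∏ ω : Finset (Fin (e + 1)),
      f (v 0 + ∑ j ∈ ω, v j.succ) (σ + MvPolynomial.eval v (S ω)) =
      ∑ σ ∈ Ioc (J1 v) (J2 v), ∏ ω : Finset (Fin (e + 1)),
        dzy y z z1 ((M : ℤ) * ((x0 : ℤ) + a1 * (v 0 + ∑ j ∈ ω, v j.succ)) *
          ((t0 : ℤ) + a2 * (σ + MvPolynomial.eval v (S ω + aeval (lf ω) P1))) + c) := by
    intro v
    rw [← (hJ v).1, Finset.sum_filter]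
    refine Finset.sum_congr rfl fun σ _ => ?_
    have e1 : ∀ ω : Finset (Fin (e + 1)), σ + MvPolynomial.eval v (S ω) + P1.eval (v 0 + ∑ j ∈ ω, v j.succ) =
        σ + MvPolynomial.eval v (S ω + aeval (lf ω) P1) := by
      intro ω
      rw [map_add, aeval_eval]
      ring
    by_cases hc : ∀ ω, cond v σ ω
    · rw [if_pos hc]
      refine Finset.prod_congr rfl fun ω _ => ?_
      have h1 := hc ω
      rw [hcond] at h1
      rw [hf]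
      simp only at h1 ⊢
      rw [e1, if_pos h1]
    · rw [if_neg hc]
      push Not at hc
      obtain ⟨ω, hω⟩ := hc
      refine Finset.prod_eq_zero (mem_univ ω) ?_
      rw [hcond] at hω
      rw [hf]
      simp only at hω ⊢
      rw [e1, if_neg hω]
  have hsum : ∑ τ ∈ Fintype.piFinset (fun _ : Fin (e + 1) => Icc (-(L : ℤ)) L),
      |∑ ξ ∈ Icc (0 : ℤ) L, ∑ σ ∈ Icc (-(Z : ℤ)) Z,
        ∏ ω : Finset (Fin (e + 1)), f (ξ + ∑ j ∈ ω, τ j) (σ + MvPolynomial.eval (Fin.cons ξ τ) (S ω))| ≤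
      err * ((L : ℝ) ^ (e + 2) * N) := by
    refine le_trans ?_ (hB0 B hB z1 L N J1 J2 hz1 hz1k hL1 hL2 hN1 hN2 (fun v => (hJ v).2))
    refine le_trans ?_ (sum_cons_le L (fun v => |∑ σ ∈ Ioc (J1 v) (J2 v), ∏ ω : Finset (Fin (e + 1)),
        dzy y z z1 ((M : ℤ) * ((x0 : ℤ) + a1 * (v 0 + ∑ j ∈ ω, v j.succ)) *
          ((t0 : ℤ) + a2 * (σ + MvPolynomial.eval v (S ω + aeval (lf ω) P1))) + c)|) (fun v => abs_nonneg _))
    refine Finset.sum_le_sum fun τ _ => ?_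
    refine (Finset.abs_sum_le_sum_abs _ _).trans (Finset.sum_le_sum fun ξ _ => ?_)
    rw [← hprod]
    simp only [Fin.cons_zero, Fin.cons_succ]
    exact le_rfl
  -- conclusion
  rw [hScl]
  have hN0 : (0 : ℝ) ≤ N := Nat.cast_nonneg _
  have hLr : (0 : ℝ) ≤ L := Nat.cast_nonneg _
  have hNb : ∀ C : ℕ, 0 < C → B ≤ C * Y → ((4 * B / (C * a2) + 1 : ℕ) : ℝ) ≤ 5 * N := by
    intro C hC hCY
    have h1 : 4 * B / (C * a2) ≤ 4 * Y / a2 := by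
      calc 4 * B / (C * a2) ≤ C * (4 * Y) / (C * a2) := Nat.div_le_div_right (by linarith)
        _ = 4 * Y / a2 := Nat.mul_div_mul_left _ _ hC
    have h2 : 4 * Y / a2 < 4 * (Y / a2) + 4 := by
      rw [Nat.div_lt_iff_lt_mul ha2]
      have := Nat.lt_div_mul_add (a := Y) ha2
      nlinarith
    have h3 : 4 * B / (C * a2) + 1 ≤ 5 * N := by omega
    exact_mod_cast h3
  have hb1 := hNb A hA0 hAY
  have hb2 := hNb A' hA0' hAY'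
  exact num (Nat.cast_nonneg _) (Nat.cast_nonneg _) hb1 hb2 hN0 hLr hsum
    (Finset.sum_nonneg fun _ _ => abs_nonneg _) hineq

end Pool.Agent.N402.QG
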